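import Pool.Agent.H691R2.Gen
import Pool.Agent.H691R2.Pair

set_option autoImplicit false

/-!
Above every degree of Hyp equivalence relations on the reals, under Hyp reducibility, there are two
incomparable degrees.
-/

namespace Pool.Agent.Results.MP_ae071c_lc.IncomparableAbove

open Pool.Agent.Helper750.Eff Pool.Agent.Helper750.KL Pool.Agent.Helper750.Sig Filter
  Pool.Agent.H691R2.Cyl Pool.Agent.H691R2.Cat Pool.Agent.H691R2.Pair Pool.Agent.H691R2.Gen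

/-- `S` is a lightface Sigma-1-1 subset of the square of Baire space: it is the projection along
a real `w` of the set of all triples all of whose finite initial segments satisfy one computable
predicate. -/
def IsSigma11 (S : (ℕ → ℕ) → (ℕ → ℕ) → Prop) : Prop :=
  ∃ R : List ℕ × List ℕ × List ℕ → Bool, Computable R ∧
    ∀ x y : ℕ → ℕ, S x y ↔ ∃ w : ℕ → ℕ, ∀ n : ℕ,
      R (List.ofFn (fun i : Fin n => x i.val), List.ofFn (fun i : Fin n => y i.val),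
         List.ofFn (fun i : Fin n => w i.val)) = true

/-- `S` is Hyp, that is lightface Delta-1-1. -/
def IsHyp (S : (ℕ → ℕ) → (ℕ → ℕ) → Prop) : Prop :=
  IsSigma11 S ∧ IsSigma11 (fun x y => ¬ S x y)

/-- The total function `f` is Hyp: its graph is Hyp. -/
def IsHypFun (f : (ℕ → ℕ) → (ℕ → ℕ)) : Prop := IsHyp (fun x y => f x = y)

/-- `E` is a Hyp equivalence relation on the reals. -/
def IsHypEquiv (E : (ℕ → ℕ) → (ℕ → ℕ) → Prop) : Prop := Equivalence E ∧ IsHyp E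

/-- `E` is Hyp reducible to `F`. -/
def HypRed (E F : (ℕ → ℕ) → (ℕ → ℕ) → Prop) : Prop :=
  ∃ f : (ℕ → ℕ) → (ℕ → ℕ), IsHypFun f ∧ ∀ x y, E x y ↔ F (f x) (f y)

theorem isHyp_iff {S : (ℕ → ℕ) → (ℕ → ℕ) → Prop} :
    IsHyp S ↔ D11 (fun p : (ℕ → ℕ) × (ℕ → ℕ) => S p.1 p.2) :=
  and_congr sigC_iff sigC_iff

theorem isHypFun_gf {f : (ℕ → ℕ) → (ℕ → ℕ)} (hf : GF f) : IsHypFun f := by
  have h1 : S11 (fun p : (ℕ → ℕ) × (ℕ → ℕ) => f p.1 = p.2) :=
    S11.cl (Cl_eq (hf.comp GF.fst) GF.snd)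
  exact isHyp_iff.mpr ⟨h1, graph_not h1⟩

/-- `E` on the reals with tag zero, and all other reals in one class. -/
def plus (E : (ℕ → ℕ) → (ℕ → ℕ) → Prop) (p q : ℕ → ℕ) : Prop :=
  (evn p = O ∧ evn q = O ∧ E (odd p) (odd q)) ∨ (¬ evn p = O ∧ ¬ evn q = O)

/-- `E` on the reals with tag zero, `F` on the reals with tag in `A`, and all other reals in one
class. -/
def mix (E F : (ℕ → ℕ) → (ℕ → ℕ) → Prop) (A : (ℕ → ℕ) → Prop) (p q : ℕ → ℕ) : Prop :=
  (evn p = O ∧ evn q = O ∧ E (odd p) (odd q)) ∨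
    ((A (evn p) ∧ A (evn q) ∧ F (odd p) (odd q)) ∨
      ((¬ evn p = O ∧ ¬ A (evn p)) ∧ (¬ evn q = O ∧ ¬ A (evn q))))

section

variable {E F : (ℕ → ℕ) → (ℕ → ℕ) → Prop} {A B : (ℕ → ℕ) → Prop}

theorem D11_tag {f : (ℕ → ℕ) × (ℕ → ℕ) → (ℕ → ℕ)} (hf : GF f) :
    D11 (fun p : (ℕ → ℕ) × (ℕ → ℕ) => evn (f p) = O) :=
  D11.cl (Cl_eq (GF.evn hf) GF_O)

theorem D11_plus (hE : D11 (fun p : (ℕ → ℕ) × (ℕ → ℕ) => E p.1 p.2)) :
    D11 (fun p : (ℕ → ℕ) × (ℕ → ℕ) => plus E p.1 p.2) := by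
  have h1 := D11_tag (f := fun p => p.1) GF.fst
  have h2 := D11_tag (f := fun p => p.2) GF.snd
  have h3 := hE.comp (F := fun p : (ℕ → ℕ) × (ℕ → ℕ) => (odd p.1, odd p.2))
    (GF.pair (GF.odd GF.fst) (GF.odd GF.snd))
  exact (h1.and (h2.and h3)).or (h1.not.and h2.not)

theorem D11_mix (hE : D11 (fun p : (ℕ → ℕ) × (ℕ → ℕ) => E p.1 p.2))
    (hF : D11 (fun p : (ℕ → ℕ) × (ℕ → ℕ) => F p.1 p.2)) (hA : D11 A) :
    D11 (fun p : (ℕ → ℕ) × (ℕ → ℕ) => mix E F A p.1 p.2) := by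
  have h1 := D11_tag (f := fun p => p.1) GF.fst
  have h2 := D11_tag (f := fun p => p.2) GF.snd
  have g : GF (fun p : (ℕ → ℕ) × (ℕ → ℕ) => (odd p.1, odd p.2)) :=
    GF.pair (GF.odd GF.fst) (GF.odd GF.snd)
  have h3 := hE.comp (F := fun p : (ℕ → ℕ) × (ℕ → ℕ) => (odd p.1, odd p.2)) g
  have h4 := hF.comp (F := fun p : (ℕ → ℕ) × (ℕ → ℕ) => (odd p.1, odd p.2)) g
  have a1 := hA.comp (F := fun p : (ℕ → ℕ) × (ℕ → ℕ) => evn p.1) (GF.evn GF.fst)
  have a2 := hA.comp (F := fun p : (ℕ → ℕ) × (ℕ → ℕ) => evn p.2) (GF.evn GF.snd)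
  exact (h1.and (h2.and h3)).or ((a1.and (a2.and h4)).or ((h1.not.and a1.not).and
    (h2.not.and a2.not)))

theorem mix_equiv (hE : Equivalence E) (hF : Equivalence F) (hA : ¬ A O) :
    Equivalence (mix E F A) := by
  refine ⟨fun p => ?_, fun {p q} h => ?_, fun {p q r} h h' => ?_⟩
  · by_cases h0 : evn p = O
    · exact Or.inl ⟨h0, h0, hE.refl _⟩
    · by_cases h1 : A (evn p)
      · exact Or.inr (Or.inl ⟨h1, h1, hF.refl _⟩)
      · exact Or.inr (Or.inr ⟨⟨h0, h1⟩, h0, h1⟩)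
  · rcases h with ⟨h1, h2, h3⟩ | ⟨h1, h2, h3⟩ | ⟨h1, h2⟩
    · exact Or.inl ⟨h2, h1, hE.symm h3⟩
    · exact Or.inr (Or.inl ⟨h2, h1, hF.symm h3⟩)
    · exact Or.inr (Or.inr ⟨h2, h1⟩)
  · rcases h with ⟨h1, h2, h3⟩ | ⟨h1, h2, h3⟩ | ⟨h1, h2⟩ <;>
      rcases h' with ⟨k1, k2, k3⟩ | ⟨k1, k2, k3⟩ | ⟨k1, k2⟩
    · exact Or.inl ⟨h1, k2, hE.trans h3 k3⟩
    · rw [h2] at k1; exact absurd k1 hA
    · exact absurd h2 k1.1
    · rw [k1] at h2; exact absurd h2 hA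
    · exact Or.inr (Or.inl ⟨h1, k2, hF.trans h3 k3⟩)
    · exact absurd h2 k1.2
    · exact absurd k1 h2.1
    · exact absurd k1 h2.2
    · exact Or.inr (Or.inr ⟨h1, k2⟩)

/-- `E` is reducible to the mixed relation. -/
theorem red_mix (hA : ¬ A O) : HypRed E (mix E F A) := by
  refine ⟨fun x => join O x, isHypFun_gf (GF.join GF_O GF.id), fun x y => ?_⟩
  unfold mix
  simp only [evn_join, odd_join, true_and, not_true_eq_false, false_and, and_false, or_false]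
  constructor
  · exact fun h => Or.inl h
  · rintro (h | ⟨h, _⟩)
    · exact h
    · exact absurd h hA

theorem not_red_mix (hOA : ¬ A O)
    (hAB : ∀ f : (ℕ → ℕ) → (ℕ → ℕ), S11 (fun p : (ℕ → ℕ) × (ℕ → ℕ) => f p.1 = p.2) →
      ∃ x, A x ∧ ∀ᶠ y in residual (ℕ → ℕ), ¬ B (f (join x y))) :
    ¬ HypRed (mix E (FR (plus E)) A) (mix E (FR (plus E)) B) := by
  rintro ⟨f, hf, hred⟩
  have hfs : S11 (fun p : (ℕ → ℕ) × (ℕ → ℕ) => f p.1 = p.2) := (isHyp_iff.mp hf).1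
  have hg : S11 (fun p : (ℕ → ℕ) × (ℕ → ℕ) => (fun q => evn (f q)) p.1 = p.2) := by
    have h1 : S11 (fun r : ((ℕ → ℕ) × (ℕ → ℕ)) × (ℕ → ℕ) => f r.1.1 = r.2 ∧ evn r.2 = r.1.2) :=
      (hfs.comp (F := fun r : ((ℕ → ℕ) × (ℕ → ℕ)) × (ℕ → ℕ) => (r.1.1, r.2))
        (GF.pair (GF.fst.comp GF.fst) GF.snd)).and
        (S11.cl (Cl_eq (GF.evn GF.snd) (GF.snd.comp GF.fst)))
    refine (S11.exR h1).of_iff fun p => ?_
    constructor
    · intro h
      exact ⟨_, rfl, h⟩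
    · rintro ⟨z, e, h⟩
      simp only at e h ⊢
      rw [e]
      exact h
  obtain ⟨x, hAx, hy⟩ := hAB (fun q => evn (f q)) hg
  have hxO : ¬ x = O := fun e => hOA (e ▸ hAx)
  -- the coordinates of the induced function have the Baire property
  have hφ : ∀ n k, BaireMeasurableSet {y : ℕ → ℕ | f (join x y) n = k} := by
    intro n k
    have key : ∀ {Q : (ℕ → ℕ) → Prop}, S11 Q →
        S11 (fun p : (ℕ → ℕ) × (ℕ → ℕ) => Q (f (join p.1 p.2))) := by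
      intro Q hQ
      have h1 : S11 (fun r : ((ℕ → ℕ) × (ℕ → ℕ)) × (ℕ → ℕ) =>
          f (join r.1.1 r.1.2) = r.2 ∧ Q r.2) :=
        (hfs.comp (F := fun r : ((ℕ → ℕ) × (ℕ → ℕ)) × (ℕ → ℕ) => (join r.1.1 r.1.2, r.2))
          (GF.pair (GF.join (GF.fst.comp GF.fst) (GF.snd.comp GF.fst)) GF.snd)).and
          (hQ.comp GF.snd)
      refine (S11.exR h1).of_iff fun p => ?_
      constructor
      · intro h
        exact ⟨_, rfl, h⟩
      · rintro ⟨z, e, h⟩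
        simp only at e h
        rw [e]
        exact h
    have hD : D11 (fun z : ℕ → ℕ => z n = k) := by
      have h1 : CN (fun z : ℕ → ℕ => decide (z n = k)) :=
        CN.prim (f := fun a : ℕ => decide (a = k))
          (Primrec.eq.decide.comp Primrec.id (Primrec.const k)) (CN.app GF.id (CN.const n))
      exact (D11.dec h1).of_iff fun z => by simp
    exact baire (Z := fun p : (ℕ → ℕ) × (ℕ → ℕ) => f (join p.1 p.2) n = k)
      ⟨key hD.1, key hD.2⟩ x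
  refine no_red (R := plus E) (φ := fun y => f (join x y)) hφ hy ?_
  intro y y' hC hC'
  have e1 : FR (plus E) y y' ↔ mix E (FR (plus E)) A (join x y) (join x y') := by
    unfold mix
    simp only [evn_join, odd_join, hxO, hAx, false_and, false_or, true_and, not_true_eq_false,
      and_false, or_false]
  rw [e1, hred]
  unfold mix plus
  constructor
  · rintro (h | ⟨h, _⟩ | h)
    · exact Or.inl h
    · exact absurd h hC
    · exact Or.inr ⟨h.1.1, h.2.1⟩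
  · rintro (h | h)
    · exact Or.inl h
    · exact Or.inr (Or.inr ⟨⟨h.1, hC⟩, h.2, hC'⟩)

end

/-- For every Hyp equivalence relation `E` there are two Hyp equivalence relations to which `E` is
Hyp reducible, and which are incomparable under Hyp reducibility. -/
theorem result (E : (ℕ → ℕ) → (ℕ → ℕ) → Prop) (hE : IsHypEquiv E) :
    ∃ A B : (ℕ → ℕ) → (ℕ → ℕ) → Prop, IsHypEquiv A ∧ IsHypEquiv B ∧
      HypRed E A ∧ HypRed E B ∧ ¬ HypRed A B ∧ ¬ HypRed B A := by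
  obtain ⟨hEq, hHyp⟩ := hE
  have hD : D11 (fun p : (ℕ → ℕ) × (ℕ → ℕ) => E p.1 p.2) := isHyp_iff.mp hHyp
  obtain ⟨A, B, hA, hB, hAB, hBA⟩ := exists_pair
  have hconst : S11 (fun p : (ℕ → ℕ) × (ℕ → ℕ) => (fun _ => O) p.1 = p.2) :=
    S11.cl (Cl_eq GF_O GF.snd)
  have hOA : ¬ A O := by
    obtain ⟨x, _, h⟩ := hBA (fun _ => O) hconst
    obtain ⟨y, hy⟩ := (dense_of_mem_residual h).nonempty
    exact hy
  have hOB : ¬ B O := by
    obtain ⟨x, _, h⟩ := hAB (fun _ => O) hconst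
    obtain ⟨y, hy⟩ := (dense_of_mem_residual h).nonempty
    exact hy
  have hF : D11 (fun p : (ℕ → ℕ) × (ℕ → ℕ) => FR (plus E) p.1 p.2) := D11_FR (D11_plus hD)
  refine ⟨mix E (FR (plus E)) A, mix E (FR (plus E)) B,
    ⟨mix_equiv hEq (FR_equiv _) hOA, isHyp_iff.mpr (D11_mix hD hF (D11.cl hA))⟩,
    ⟨mix_equiv hEq (FR_equiv _) hOB, isHyp_iff.mpr (D11_mix hD hF (D11.cl hB))⟩,
    red_mix hOA, red_mix hOB, not_red_mix hOA hAB, not_red_mix hOB hBA⟩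

end Pool.Agent.Results.MP_ae071c_lc.IncomparableAbove
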